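import Pool.Agent.H53.UK.Targets

/-!
MP_c62aed_lc, uniformly random `k`-CNFs, row SZU: large spread sets have small cubes.
-/

set_option autoImplicit false

namespace Pool.Agent.H42.UK

open Finset
open Pool.Agent.H53.UK

/-- a set of assignments which agree with `x` on `A` has at most `2 ^ (n - |A|)` elements -/
theorem card_cubeU {n : ℕ} (A : Finset (Fin n)) (x : Fin n → Bool) (Q : Finset (Fin n → Bool))
    (h : ∀ y ∈ Q, ∀ i ∈ A, y i = x i) : Q.card ≤ 2 ^ (n - A.card) := by
  classical
  have hc : Fintype.card ({j : Fin n // j ∉ A} → Bool) = 2 ^ (n - A.card) := by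
    rw [Fintype.card_fun, Fintype.card_bool, Fintype.card_subtype_compl, Fintype.card_fin]
    simp
  rw [← hc, ← card_univ]
  apply card_le_card_of_injOn (fun (x : Fin n → Bool) (j : {j : Fin n // j ∉ A}) => x j.1)
    (fun _ _ => mem_coe.2 (mem_univ _))
  intro y hy z hz hyz
  have hy' := h y (mem_coe.1 hy)
  have hz' := h z (mem_coe.1 hz)
  funext j
  by_cases hj : j ∈ A
  · rw [hy' j hj, hz' j hj]
  · exact congrFun hyz ⟨j, hj⟩

/-- SZU -/
theorem pf_SZU : T_SZU := by
  intro n k ι H d s₀ w p Q _ hQ hc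
  by_contra h
  have h1 := card_cubeU p.1 p.2 Q hQ.inc
  have h2 : 2 ^ (n - p.1.card) ≤ 2 ^ (n - w) := Nat.pow_le_pow_right (by norm_num) (by omega)
  omega

end Pool.Agent.H42.UK
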